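import Pool.Agent.Run7.h717.SA.Iface

/-!
Piece DEC of project SA (helper942).
-/

set_option autoImplicit false

namespace Pool.Agent.Run7.h942.SA

open MeasureTheory ProbabilityTheory Filter Topology
open scoped ENNReal
open Pool.Agent.Run7.h717.SA

theorem t_DEC : S_DEC := by
  intro m H hH
  have h1 : Module.finrank ℝ Hᗮ = 1 := by
    have h2 := Submodule.finrank_add_finrank_orthogonal H
    rw [finrank_euclideanSpace_fin, hH] at h2
    omega
  obtain ⟨v, hv0, hv⟩ := finrank_eq_one_iff'.1 h1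
  obtain ⟨n, hn⟩ : ∃ n : E (m + 1), n = ‖(v : E (m + 1))‖⁻¹ • (v : E (m + 1)) := ⟨_, rfl⟩
  have hvn : (v : E (m + 1)) ≠ 0 := fun h => hv0 (Subtype.ext h)
  have hn1 : ‖n‖ = 1 := by
    rw [hn, norm_smul, norm_inv, norm_norm, inv_mul_cancel₀ (norm_ne_zero_iff.2 hvn)]
  have hnmem : n ∈ Hᗮ := by
    rw [hn]
    exact Submodule.smul_mem _ _ v.2
  have hperp : ∀ h ∈ H, inner ℝ h n = 0 := fun h hh => Submodule.inner_right_of_mem_orthogonal hh hnmem
  refine ⟨n, hn1, hperp, ?_⟩
  have hdec : ∀ t : E (m + 1), ∃ (x : H) (c : ℝ), t = (x : E (m + 1)) + c • n := by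
    intro t
    have h3 : t - (H.starProjection t) ∈ Hᗮ := Submodule.sub_starProjection_mem_orthogonal t
    obtain ⟨c, hc⟩ := hv ⟨_, h3⟩
    refine ⟨H.orthogonalProjectionOnto t, c * ‖(v : E (m + 1))‖, ?_⟩
    have hc' : c • (v : E (m + 1)) = t - (H.starProjection t) := congrArg Subtype.val hc
    have h4 : (c * ‖(v : E (m + 1))‖) • n = c • (v : E (m + 1)) := by
      rw [hn, smul_smul, mul_assoc, mul_inv_cancel₀ (norm_ne_zero_iff.2 hvn), mul_one]
    rw [h4, hc', ← Submodule.starProjection_apply]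
    abel
  have hmeas : Measurable fun p : H × ℝ => (p.1 : E (m + 1)) + p.2 • n := by fun_prop
  apply Measure.ext_of_charFun
  funext t
  obtain ⟨x, c, rfl⟩ := hdec t
  rw [charFun_stdGaussian, charFun_apply, integral_map hmeas.aemeasurable (by fun_prop)]
  have h5 : ∀ p : H × ℝ, inner ℝ ((p.1 : E (m + 1)) + p.2 • n) ((x : E (m + 1)) + c • n) = inner ℝ p.1 x + c * p.2 := by
    intro p
    have hnx : inner ℝ n (x : E (m + 1)) = 0 := by
      rw [real_inner_comm]
      exact hperp _ x.2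
    have e0 : inner ℝ ((p.1 : E (m + 1))) (x : E (m + 1)) = inner ℝ p.1 x := rfl
    rw [inner_add_left, inner_add_right, inner_add_right, real_inner_smul_right, real_inner_smul_left, real_inner_smul_left,
      real_inner_smul_right, hperp _ p.1.2, hnx, real_inner_self_eq_norm_sq, hn1, e0]
    ring
  have h6 : ∀ p : H × ℝ, Complex.exp ((inner ℝ ((p.1 : E (m + 1)) + p.2 • n) ((x : E (m + 1)) + c • n) : ℝ) * Complex.I) =
      Complex.exp ((inner ℝ p.1 x : ℝ) * Complex.I) * Complex.exp (c * p.2 * Complex.I) := by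
    intro p
    rw [h5, ← Complex.exp_add]
    congr 1
    push_cast
    ring
  simp only [h6]
  rw [integral_prod_mul (fun y : H => Complex.exp ((inner ℝ y x : ℝ) * Complex.I)) (fun s : ℝ => Complex.exp (c * s * Complex.I))]
  have h7 : ∫ y : H, Complex.exp ((inner ℝ y x : ℝ) * Complex.I) ∂(stdGaussian H) = Complex.exp (-‖x‖ ^ 2 / 2) := by
    rw [← charFun_apply, charFun_stdGaussian]
  have h8 : ∫ s : ℝ, Complex.exp (c * s * Complex.I) ∂(gaussianReal 0 1) = Complex.exp (-(c ^ 2) / 2) := by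
    rw [← charFun_apply_real, charFun_gaussianReal]
    congr 1
    simp
    ring
  rw [h7, h8, ← Complex.exp_add]
  congr 1
  have h9 : ‖(x : E (m + 1)) + c • n‖ ^ 2 = ‖x‖ ^ 2 + c ^ 2 := by
    have h10 := norm_add_sq_eq_norm_sq_add_norm_sq_real (x := (x : E (m + 1))) (y := c • n) (by
      rw [inner_smul_right, hperp _ x.2, mul_zero])
    rw [sq, h10, norm_smul, hn1, mul_one, Real.norm_eq_abs, abs_mul_abs_self]
    simp only [Submodule.coe_norm]
    ring
  have h11 : ((‖(x : E (m + 1)) + c • n‖ : ℂ)) ^ 2 = (‖x‖ : ℂ) ^ 2 + (c : ℂ) ^ 2 := by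
    exact_mod_cast h9
  rw [h11]
  ring

end Pool.Agent.Run7.h942.SA
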