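import Pool.Agent.Run7.h717.SA.Iface

/-!
Piece RLO of project SA (helper942).
-/

set_option autoImplicit false

namespace Pool.Agent.Run7.h942.SA

open MeasureTheory ProbabilityTheory Filter Topology
open scoped ENNReal
open Pool.Agent.Run7.h717.SA

theorem dual_law {F : Type} [NormedAddCommGroup F] [InnerProductSpace ℝ F] [FiniteDimensional ℝ F]
    [MeasurableSpace F] [BorelSpace F] (L : StrongDual ℝ F) (hL : 0 < ‖L‖) :
    (gaussianReal 0 1).real (Set.Ici 1) = (stdGaussian F).real {g | ‖L‖ ≤ -(L g)} := by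
  have hKn : ‖(-‖L‖⁻¹) • L‖ = 1 := by
    rw [norm_smul, norm_neg, norm_inv, norm_norm, inv_mul_cancel₀ hL.ne']
  have hmap : (stdGaussian F).map ((-‖L‖⁻¹) • L) = gaussianReal 0 1 := by
    rw [IsGaussian.map_eq_gaussianReal, integral_strongDual_stdGaussian, variance_dual_stdGaussian, hKn]
    congr 1
    simp
  rw [← hmap, map_measureReal_apply ((-‖L‖⁻¹) • L).continuous.measurable measurableSet_Ici]
  congr 1
  ext g
  simp only [Set.mem_preimage, Set.mem_Ici]
  have h4 : ((-‖L‖⁻¹) • L) g = -(L g) / ‖L‖ := by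
    show (-‖L‖⁻¹) * L g = _
    field_simp
  rw [h4, le_div_iff₀ hL, one_mul]
  rfl

theorem t_RLO : S_RLO := by
  intro m hm d H z b hb
  have : Nonempty (Fin m) := ⟨⟨0, hm⟩⟩
  -- coordinates as functionals
  set L : Fin m → StrongDual ℝ H := fun i => LinearMap.toContinuousLinearMap (z.coord i) with hL
  have hLi : ∀ i g, L i g = z.repr g i := fun i g => rfl
  have hmeas : Measurable (RR z b) := by
    unfold RR
    refine Measurable.iSup fun i => ?_
    have h1 : Measurable fun g : H => z.repr g i := (L i).continuous.measurable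
    exact measurable_const.max (h1.neg.div_const _)
  have hnn : ∀ g, 0 ≤ RR z b g := fun g => Real.iSup_nonneg fun i => le_max_left _ _
  have hbdd : ∀ g, BddAbove (Set.range fun i => max 0 (-(z.repr g i) / b i)) := fun g => Set.finite_range _ |>.bddAbove
  have hle : ∀ g, RR z b g ≤ ∑ i, |z.repr g i| / b i := by
    intro g
    unfold RR
    refine ciSup_le fun i => ?_
    have h2 : |z.repr g i| / b i ≤ ∑ j, |z.repr g j| / b j :=
      Finset.single_le_sum (f := fun j => |z.repr g j| / b j) (fun j _ => div_nonneg (abs_nonneg _) (hb j).le) (Finset.mem_univ i)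
    refine le_trans ?_ h2
    refine max_le (div_nonneg (abs_nonneg _) (hb i).le) ?_
    exact div_le_div_of_nonneg_right (neg_le_abs _) (hb i).le
  have hint : Integrable (RR z b) (stdGaussian H) := by
    have h3 : Integrable (fun g : H => ∑ i, |z.repr g i| / b i) (stdGaussian H) := by
      refine integrable_finsetSum _ fun i _ => ?_
      exact ((IsGaussian.integrable_dual (stdGaussian H) (L i)).abs).div_const _
    refine h3.mono' hmeas.aestronglyMeasurable (Filter.Eventually.of_forall fun g => ?_)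
    rw [Real.norm_eq_abs, abs_of_nonneg (hnn g)]
    exact hle g
  refine ⟨hmeas, hnn, hint, ?_⟩
  -- the lower bound
  set i0 : Fin m := ⟨0, hm⟩
  set h : H := ∑ i, b i • z i with hh
  have hb0 : L i0 h = b i0 := by
    rw [hLi, hh, map_sum]
    simp [Finsupp.single_apply]
  have hbn : b i0 ≤ ‖L i0‖ * ‖h‖ := by
    rw [← hb0]
    exact (le_abs_self _).trans ((L i0).le_opNorm h)
  have hLpos : 0 < ‖L i0‖ := by
    by_contra hcon
    have h1 : ‖L i0‖ * ‖h‖ ≤ 0 := mul_nonpos_of_nonpos_of_nonneg (not_lt.1 hcon) (norm_nonneg _)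
    linarith [hb i0]
  have hh0 : 0 < ‖h‖ := by
    by_contra hcon
    have : ‖h‖ = 0 := le_antisymm (not_lt.1 hcon) (norm_nonneg _)
    rw [this, mul_zero] at hbn
    exact absurd (hb i0) (not_lt.2 hbn)
  rw [dual_law (L i0) hLpos]
  refine measureReal_mono ?_
  intro g hg
  have hg' : ‖L i0‖ ≤ -(z.repr g i0) := hg
  show 1 / ‖h‖ ≤ RR z b g
  have h5 : -(z.repr g i0) / b i0 ≤ RR z b g := (le_max_right _ _).trans (le_ciSup (hbdd g) i0)
  refine le_trans ?_ h5
  rw [div_le_div_iff₀ hh0 (hb i0), one_mul]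
  calc b i0 ≤ ‖L i0‖ * ‖h‖ := hbn
    _ ≤ -(z.repr g i0) * ‖h‖ := mul_le_mul_of_nonneg_right hg' hh0.le

end Pool.Agent.Run7.h942.SA
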